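import Pool.Agent.MWK.Stmts

/-!
# Row TGD of block MWK (MP_23468a_al): from word bits to exchanges, type D
-/

set_option autoImplicit false

namespace Pool.Agent.MWK.H81

open Pool.Agent.Helper14_MV Pool.Agent.Helper2_MV

/-- the exchange of the second occurrence of `x` with the first occurrence of `c` -/
theorem core (seg : SegStmt) (okm : OkmStmt) {θ : FIC} {m e : ℕ} (he : 1 ≤ e) (hem : e ≤ m)
    (hD : WD m e θ) {w A P1 P2 Q T : List ℕ} {x c : ℕ} (hx1 : x ∉ P1) (hx2 : x ∉ P2)
    (hwA : w = A ++ Q) (hA : ∀ l, A.count l = (P1 ++ [x] ++ P2 ++ [x] ++ [c]).count l)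
    (hwP : w = P1 ++ x :: P2 ++ T) (hc : ¬ Dp m w c) (hx : ¬ Dp e w x) :
    RR θ (P1 ++ [x] ++ P2 ++ [x] ++ [c] ++ Q) (P1 ++ [x] ++ P2 ++ [c] ++ [x] ++ Q) := by
  have hmem : ∀ l, l ∈ P1 ++ [x] ++ P2 ++ [x] ++ [c] → l ∈ A := by
    intro l hl
    have h1 := List.count_pos_iff.2 hl
    rw [← hA] at h1
    exact List.count_pos_iff.1 h1
  obtain ⟨qs, R, hlen, hQ, hOk, hlast⟩ := seg m w A Q [c] hwA (by
    intro z hz
    have hzc : z = c := by simpa using hz
    subst hzc
    exact Or.inr ⟨hmem z (by simp), hc⟩)
  have h1 := hD P1 [x] P2 [c] qs R hlen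
    (okm qs A _ [c] [c] hOk (fun l => (hA l).le) (fun z hz => hz)) (by
      intro hme l hl
      by_cases hl1 : l ∈ P1 ++ [x]
      · have h2 := List.count_pos_iff.2 hl1
        have h3 := List.count_pos_iff.2 hl
        have h4 : (P1 ++ [x] ++ P2 ++ [x] ++ [c] ++ (qs.take (m + 2 - e)).flatten).count l =
            (P1 ++ [x]).count l + P2.count l + [x].count l + [c].count l +
              ((qs.take (m + 2 - e)).flatten).count l := by
          rw [List.count_append, List.count_append, List.count_append, List.count_append]
        rw [h4]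
        omega
      · obtain ⟨P3, P4, h2, h3⟩ := List.eq_append_cons_of_mem hl
        have hlx : l ≠ x := fun h => hl1 (by simp [h])
        have hlP : l ∉ P1 := fun h => hl1 (by simp [h])
        have hpre : pre w l = P1 ++ x :: P3 := by
          have h4 : w = (P1 ++ x :: P3) ++ l :: (P4 ++ T) := by
            rw [hwP, h2]
            simp
          rw [h4]
          refine pre_split ?_ _
          intro h5
          rcases List.mem_append.1 h5 with h6 | h6
          · exact hlP h6
          · rcases List.mem_cons.1 h6 with h7 | h7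
            · exact hlx h7
            · exact h3 h7
        have hcount : (pre w l).count x = 1 := by
          have h4 : x ∉ P3 := fun h => hx2 (by rw [h2]; simp [h])
          rw [hpre, List.count_append, List.count_cons_self, List.count_eq_zero_of_not_mem hx1,
            List.count_eq_zero_of_not_mem h4]
        have hDp : ¬ Dp (e - 1) w l := by
          intro h4
          have h5 := Dp.step h4 hcount
          rw [Nat.sub_add_cancel he] at h5
          exact hx h5
        have h5 := hlast (m + 1 - e) hme l (hmem l (by simp [hl])) (by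
          rw [show m - (m + 1 - e) = e - 1 by omega]
          exact hDp)
        rw [show m + 1 - e + 1 = m + 2 - e by omega, List.count_append, hA] at h5
        rw [List.count_append]
        exact h5)
  rw [hQ]
  simpa using h1

/-- **TGD** -/
theorem tgd (swk : SwkStmt) (seg : SegStmt) (okm : OkmStmt) (fta : FtaStmt) : TgdStmt := by
  intro θ hK m e he hem hA hD P a b Q hab hPa hPb h1 h2
  by_cases ha : a ∈ P
  · by_cases hb : b ∈ P
    · exact swk θ hK P a b Q ha hb
    · have hm : ¬ Dp m (P ++ a :: b :: Q) b := fun h => h2 ⟨hb, Or.inl h⟩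
      by_cases hm1 : Dp (m + 1) (P ++ a :: b :: Q) b
      · have hea : ¬ Dp e (P ++ a :: b :: Q) a := fun h => h2 ⟨hb, Or.inr ⟨hm1, Or.inr h⟩⟩
        obtain ⟨P1, P2, hP, hP1⟩ := List.eq_append_cons_of_mem ha
        have hP2 : a ∉ P2 := by
          intro h
          have h3 := List.count_pos_iff.2 h
          rw [hP, List.count_append, List.count_cons_self] at hPa
          omega
        have h3 := core seg okm he hem hD (w := P ++ a :: b :: Q) (A := P ++ [a, b]) (P1 := P1)
          (P2 := P2) (Q := Q) (T := a :: b :: Q) (x := a) (c := b) hP1 hP2 (by simp)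
          (fun l => by
            rw [hP]
            simp [List.count_append, List.count_cons]) (by rw [hP]) hm hea
        rw [hP]
        simpa using h3
      · exact fta θ hK m hA P a b Q (Or.inl ha) (Or.inr hm1)
  · by_cases hb : b ∈ P
    · have hm : ¬ Dp m (P ++ a :: b :: Q) a := fun h => h1 ⟨ha, Or.inl h⟩
      by_cases hm1 : Dp (m + 1) (P ++ a :: b :: Q) a
      · have heb : ¬ Dp e (P ++ a :: b :: Q) b := fun h => h1 ⟨ha, Or.inr ⟨hm1, Or.inr h⟩⟩
        obtain ⟨P1, P2, hP, hP1⟩ := List.eq_append_cons_of_mem hb
        have hP2 : b ∉ P2 := by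
          intro h
          have h3 := List.count_pos_iff.2 h
          rw [hP, List.count_append, List.count_cons_self] at hPb
          omega
        have h3 := core seg okm he hem hD (w := P ++ a :: b :: Q) (A := P ++ [a, b]) (P1 := P1)
          (P2 := P2) (Q := Q) (T := a :: b :: Q) (x := b) (c := a) hP1 hP2 (by simp)
          (fun l => by
            rw [hP]
            simp only [List.count_append, List.count_cons, List.count_nil]
            omega) (by rw [hP]) hm heb
        rw [hP]
        refine RR.symm ?_
        simpa using h3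
      · exact fta θ hK m hA P a b Q (Or.inr hm1) (Or.inl hb)
    · have h3 : P.count b = 0 := List.count_eq_zero_of_not_mem hb
      have h4 : P.count a = 0 := List.count_eq_zero_of_not_mem ha
      exact fta θ hK m hA P a b Q (Or.inr fun h => h1 ⟨ha, Or.inr ⟨h, Or.inl h3⟩⟩)
        (Or.inr fun h => h2 ⟨hb, Or.inr ⟨h, Or.inl h4⟩⟩)

end Pool.Agent.MWK.H81
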